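import Mathlib
import Pool.Agent.H400Z.Win.Defs
import Pool.Agent.H400Z.Win.Nonempty

set_option autoImplicit false

namespace Pool.Agent.Results.MP_5e03f8_nt.ANonempty

open NumberField Pool.Agent.H400Z.Win

/-- In the quadratic field containing `√14`, the Euclidean window of the prime `(2, √14)` contains
the nonempty interval `(√5, 56/25]`. -/
theorem result (K : Type) [Field K] [NumberField K] (hK : Module.finrank ℚ K = 2)
    (θ : 𝓞 K) (hθ : θ ^ 2 = 14) :
    (window (Ideal.span {2, θ})).Nonempty ∧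
      Set.Ioc (Real.sqrt 5) (56 / 25) ⊆ window (Ideal.span {2, θ}) := by
  have h : Set.Ioc (Real.sqrt 5) (56 / 25) ⊆ window (Ideal.span {2, θ}) := fun c hc =>
    (mem_window_iff hK hθ c).2 ⟨lt_of_le_of_lt (Real.sqrt_nonneg _) hc.1, eucl_of_mem hc.1 hc.2⟩
  exact ⟨⟨56 / 25, h ⟨(Real.sqrt_lt' (by norm_num)).2 (by norm_num), le_rfl⟩⟩, h⟩

end Pool.Agent.Results.MP_5e03f8_nt.ANonempty
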