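import Mathlib
import Pool.Agent.H400Z.Win.Defs
import Pool.Agent.H400Z.Win.Counter

set_option autoImplicit false

namespace Pool.Agent.Results.MP_5e03f8_nt.BNotFull

open NumberField Pool.Agent.H400Z.Win

/-- In the quadratic field containing `√14`, the Euclidean window of the prime `(2, √14)` is not
the interval `(√5, √7)`. -/
theorem result (K : Type) [Field K] [NumberField K] (hK : Module.finrank ℚ K = 2)
    (θ : 𝓞 K) (hθ : θ ^ 2 = 14) :
    window (Ideal.span {2, θ}) ≠ Set.Ioo (Real.sqrt 5) (Real.sqrt 7) := by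
  intro h
  have h1 : (5 / 2 : ℝ) ∈ window (Ideal.span {2, θ}) := by
    rw [h]
    exact ⟨(Real.sqrt_lt' (by norm_num)).2 (by norm_num), (Real.lt_sqrt (by norm_num)).2 (by norm_num)⟩
  exact not_eucl_five_halves le_rfl ((mem_window_iff hK hθ _).1 h1).2

end Pool.Agent.Results.MP_5e03f8_nt.BNotFull
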